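import Mathlib
import Pool.Agent.Lib.MP_cd509c_nt.Newman

set_option autoImplicit false

/-!
# The de Bruijn–Newman constant of the Ramanujan L-function

`H 0 z = Λ(6 + i z) = Ξ_Δ(z)`; `H t` is obtained by inserting the factor `exp (t log² y)` in the
Mellin integral of `Δ(iy)`.
-/

namespace Pool.Agent.Lib.MP_cd509c_nt.Old.DeBruijnNewman

/-- `H t z`: the Mellin transform of `y ↦ exp (t log² y) Δ(iy)` at the point `6 + i z`. -/
noncomputable def H (t : ℝ) (z : ℂ) : ℂ :=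
  mellin (fun y : ℝ =>
    ((Real.exp (t * Real.log y ^ 2) * (Real.exp (-2 * Real.pi * y) *
      ∏' n : ℕ, (1 - Real.exp (-2 * Real.pi * ((n : ℝ) + 1) * y)) ^ 24) : ℝ) : ℂ))
    (6 + Complex.I * z)

/-- There is `t₀ < 1/8` such that `H t` has only real zeros for every `t ≥ t₀`: the
de Bruijn–Newman constant of `L(s, Δ)` is strictly smaller than `1/8`. -/
theorem result :
    ∃ t₀ : ℝ, t₀ < 1 / 8 ∧ ∀ t : ℝ, t₀ ≤ t → ∀ z : ℂ, H t z = 0 → z.im = 0 :=
  Pool.Agent.Lib.MP_cd509c_nt.newman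

end Pool.Agent.Lib.MP_cd509c_nt.Old.DeBruijnNewman
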