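import Mathlib
import Pool.Agent.Lib.MP_cd509c_nt.DerivZeros

set_option autoImplicit false

/-!
# Zeros of high derivatives of the Ramanujan Xi-function

`Lam s` is the Mellin transform of `y ↦ Δ(iy)`, so `Xi z = Lam (6 + i z)` is the Ramanujan
Xi-function. For large `n` all zeros of its `n`-th derivative in `|Re z| ≤ exp (n / C)` are real.
-/

namespace Pool.Agent.Lib.MP_cd509c_nt.Old.DerivativeZeros

/-- `Λ(s)`: the Mellin transform of `y ↦ Δ(iy)`. -/
noncomputable def Lam (s : ℂ) : ℂ :=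
  mellin (fun y : ℝ =>
    (((Real.exp (-2 * Real.pi * y)) *
      ∏' n : ℕ, (1 - Real.exp (-2 * Real.pi * ((n : ℝ) + 1) * y)) ^ 24 : ℝ) : ℂ)) s

/-- The Ramanujan Xi-function. -/
noncomputable def Xi (z : ℂ) : ℂ := Lam (6 + Complex.I * z)

/-- There is `C > 0` such that for all `n ≥ C` every zero `z` of the `n`-th derivative of `Xi`
with `|Re z| ≤ exp (n / C)` is real. -/
theorem result :
    ∃ C : ℝ, 0 < C ∧ ∀ n : ℕ, C ≤ n → ∀ z : ℂ, iteratedDeriv n Xi z = 0 →
      |z.re| ≤ Real.exp (n / C) → z.im = 0 :=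
  Pool.Agent.Lib.MP_cd509c_nt.deriv_zeros_real

end Pool.Agent.Lib.MP_cd509c_nt.Old.DerivativeZeros
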