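import Mathlib
import Pool.Agent.Lib.MP_cd509c_nt.HeatReal

set_option autoImplicit false

/-!
# The heat flow of the Ramanujan Xi-function

`H 0 z = Λ(6 + i z) = Ξ_Δ(z)`, and `H t` is the function obtained from it by running the
(backward) heat equation `∂_t H = -∂_z² H`, i.e. by inserting the factor `exp (t log² y)` in the
Mellin integral of `Δ(iy)`.
-/

namespace Pool.Agent.Lib.MP_cd509c_nt.Old.HeatFlowReal

/-- `H t z`: the Mellin transform of `y ↦ exp (t log² y) Δ(iy)` at the point `6 + i z`. -/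
noncomputable def H (t : ℝ) (z : ℂ) : ℂ :=
  mellin (fun y : ℝ =>
    ((Real.exp (t * Real.log y ^ 2) * (Real.exp (-2 * Real.pi * y) *
      ∏' n : ℕ, (1 - Real.exp (-2 * Real.pi * ((n : ℝ) + 1) * y)) ^ 24) : ℝ) : ℂ))
    (6 + Complex.I * z)

/-- There is `C > 0` such that for all `0 < t ≤ 1` every zero `z` of `H t` with
`|Re z| ≥ exp (C / t)` is real. -/
theorem result :
    ∃ C : ℝ, 0 < C ∧ ∀ t : ℝ, 0 < t → t ≤ 1 → ∀ z : ℂ,
      Real.exp (C / t) ≤ |z.re| → H t z = 0 → z.im = 0 := by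
  obtain ⟨C, hC, h⟩ := Pool.Agent.Lib.MP_cd509c_nt.Ht_real
  exact ⟨C, by linarith, fun t ht ht1 z hz h0 => h t ht ht1 z hz h0⟩

end Pool.Agent.Lib.MP_cd509c_nt.Old.HeatFlowReal
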