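import Mathlib
import Pool.Agent.Lib.MP_cd509c_nt.JensenLog

set_option autoImplicit false

/-!
# Hyperbolicity of the Jensen polynomials of the Ramanujan Xi-function for `n ≥ C log (d + 1)`

`Lam s` is the Mellin transform of `y ↦ Δ(iy)`, so `Ξ_Δ(z) = Lam (6 + i z)`;
`gam k = k!/(2k)! Lam^{(2k)}(6)`, and `J d n` is the Jensen polynomial of degree `d` and shift `n`
of the sequence `gam`.
-/

namespace Pool.Agent.Lib.MP_cd509c_nt.Old.JensenLog

open Polynomial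
open scoped Nat

/-- `Λ(s)`: the Mellin transform of `y ↦ Δ(iy)`. -/
noncomputable def Lam (s : ℂ) : ℂ :=
  mellin (fun y : ℝ =>
    (((Real.exp (-2 * Real.pi * y)) *
      ∏' n : ℕ, (1 - Real.exp (-2 * Real.pi * ((n : ℝ) + 1) * y)) ^ 24 : ℝ) : ℂ)) s

/-- `γ(k) = k!/(2k)! · Λ^{(2k)}(6)`, so that `Λ(6 + z) = ∑ γ(k) z^{2k} / k!`. -/
noncomputable def gam (k : ℕ) : ℂ := (k ! : ℂ) / ((2 * k)! : ℂ) * iteratedDeriv (2 * k) Lam 6

/-- The Jensen polynomial `J^{d,n}(X) = ∑_j (d choose j) γ(n+j) X^j`. -/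
noncomputable def J (d n : ℕ) : ℂ[X] :=
  ∑ j ∈ Finset.range (d + 1), C ((d.choose j : ℂ) * gam (n + j)) * X ^ j

/-- There is `C > 0` such that `J d n` has only real zeros whenever
`d ≥ 1` and `n ≥ C log (d + 1)`. -/
theorem result :
    ∃ C : ℝ, 0 < C ∧ ∀ d n : ℕ, 1 ≤ d → C * Real.log (d + 1) ≤ n →
      ∀ z : ℂ, (J d n).eval z = 0 → z.im = 0 := by
  have hJ : ∀ d n : ℕ, ∀ z : ℂ, (J d n).eval z = Pool.Agent.Lib.MP_cd509c_nt.Jen d n z := by
    intro d n z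
    unfold J Pool.Agent.Lib.MP_cd509c_nt.Jen
    rw [eval_finsetSum]
    apply Finset.sum_congr rfl
    intro j _
    rw [eval_mul, eval_C, eval_pow, eval_X]
    rfl
  obtain ⟨C, hC, h⟩ := Pool.Agent.Lib.MP_cd509c_nt.jensen_log
  refine ⟨C, hC, fun d n hd hn z hz => h d n hd hn z ?_⟩
  rw [← hJ]; exact hz

end Pool.Agent.Lib.MP_cd509c_nt.Old.JensenLog
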